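import Pool.Agent.Y511.CB.Gen

/-!
# The normal closure of `C(n)` in `IA(F(n))` and its intersection with `T(n)`, for `n ≥ 4`

For `φ` in `IA(F(n))` and indices `k`, `i`, `m` let `fox k (φ x_i) m` be the Fox derivative
`∂ φ(x_i) / ∂ x_m` evaluated at `x_k = 1 + s`, `x_j = 1` (`j ≠ k`). The coefficients of `s` (for
distinct indices) and, corrected by `d (d - 1) / 2`, of `s ^ 2` (for `m = i ≠ k`) define a
homomorphism `ρ` from `IA(F(n))` to a nilpotent group of class two that kills all `K_{ij}`.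
For `n ≥ 4` its kernel on the group generated by all `K_{ij}` and `K_{ijk}` (all of `IA(F(n))`
by the theorem of Nielsen and Magnus) is exactly the normal closure of `C(n)`. Consequently
`C̄(n) ∩ T(n)` is the normal closure in `T(n)` of explicit elements; it contains the third term
`[[T(n), T(n)], T(n)]` of the lower central series but no nontrivial power of
`[K_{pqr}, K_{qpr}]`, for all `n`.

Idea: modulo `C̄(n)` left and right multiplications of `x_i` agree, so the `K_{ijk}` with fixed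
`i` commute. Relations of `IA(F(n))` conjugated by a transvection `x_q ↦ x_q x_p` give, with a
fourth index, that `K_{pqr}` and `K_{qps}` commute for `r ≠ s` and that
`h_{pq} = [K_{pqr}, K_{qpr}]` satisfies `h_{ps} = h_{pq} h_{qs}` and is central.
-/

set_option autoImplicit false

namespace Pool.Agent.Results.MP_0edd48_al.NormalClosure

open FreeGroup (of)
open Pool.Agent.Results.MP_0edd48_al.NontrivialIntersection
open Pool.Agent.Y511.CB
open scoped commutatorElement

variable {n : ℕ}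

theorem MI_symm (i j k : Fin n) (hj : j ≠ i) (hk : k ≠ i) :
    MI i k j hk hj = (MI i j k hj hk)⁻¹ := by
  apply Subtype.ext
  apply ext_of
  intro m
  show M i k j hk hj (of m) = (M i j k hj hk)⁻¹ (of m)
  by_cases h1 : m = i
  · subst h1
    rw [M_same, Mi_same]
  · rw [M_ne _ _ _ _ _ h1, Mi_ne _ _ _ _ _ h1]

theorem MI_memT (i j k : Fin n) (h : Tr i j k) : MI i j k h.1 h.2.1 ∈ T n := by
  rcases lt_or_gt_of_ne h.2.2 with h1 | h1
  · exact MI_mem i j k h.1 h.2.1 h1
  · rw [MI_symm i k j h.2.1 h.1]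
    exact inv_mem (MI_mem i k j h.2.1 h.1 h1)

/-- The automorphism `K_{ijk}`, `x_i ↦ x_i [x_j, x_k]`, as an element of `T(n)`, for distinct
`i`, `j`, `k` (and the identity otherwise). -/
def mt (i j k : Fin n) : T n := if h : Tr i j k then ⟨MI i j k h.1 h.2.1, MI_memT i j k h⟩ else 1

theorem mt_of (i j k : Fin n) (h : Tr i j k) :
    ((mt i j k : T n) : IA n) = MI i j k h.1 h.2.1 := by
  rw [mt, dif_pos h]

theorem mt_not (i j k : Fin n) (h : ¬ Tr i j k) : mt i j k = 1 := by
  rw [mt, dif_neg h]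

theorem Tr_swap {i j k : Fin n} (h : Tr i j k) : Tr i k j := ⟨h.2.1, h.1, h.2.2.symm⟩
theorem Tr_flip {i j k : Fin n} (h : Tr i j k) : Tr j i k := ⟨h.1.symm, h.2.2.symm, h.2.1.symm⟩

theorem mt_symm (i j k : Fin n) : mt i k j = (mt i j k)⁻¹ := by
  by_cases h : Tr i j k
  · apply Subtype.ext
    rw [mt_of i k j (Tr_swap h)]
    show _ = ((mt i j k : T n) : IA n)⁻¹
    rw [mt_of i j k h]
    exact MI_symm i j k h.1 h.2.1
  · rw [mt_not _ _ _ h, mt_not _ _ _ (fun h' => h (Tr_swap h')), inv_one]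

/-- The explicit relators, elements of `T(n)`. -/
def relators (n : ℕ) : Set (T n) :=
  {x | ∃ i j k l m p : Fin n, Tr i j k ∧ Tr l m p ∧ ¬ Rev i j k l m p ∧
    x = cm (mt i j k) (mt l m p)} ∪
  {x | ∃ i j k p q r : Fin n, Tr i j k ∧ Tr p q r ∧
    x = cm (mt i j k) (cm (mt p q r) (mt q p r))} ∪
  {x | ∃ p q r s : Fin n, Tr p q r ∧ s ≠ p ∧ s ≠ q ∧ s ≠ r ∧
    x = cm (mt p s r) (mt s p r) *
      (cm (mt p q r) (mt q p r) * cm (mt q s r) (mt s q r))⁻¹}

theorem pr_mt (i j k : Fin n) (h : Tr i j k) : pr n ((mt i j k : T n) : IA n) = a i j k := by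
  rw [mt_of i j k h, pM]

theorem coe_cm (x y : T n) : ((cm x y : T n) : IA n) = cm (x : IA n) (y : IA n) := rfl

theorem exists_fourth (hn : 4 ≤ n) (p q r : Fin n) : ∃ s : Fin n, s ≠ p ∧ s ≠ q ∧ s ≠ r := by
  by_contra h
  push Not at h
  have h1 : (Finset.univ : Finset (Fin n)) ⊆ {p, q, r} := by
    intro s _
    simp only [Finset.mem_insert, Finset.mem_singleton]
    by_cases h1 : s = p
    · exact Or.inl h1
    by_cases h2 : s = q
    · exact Or.inr (Or.inl h2)
    exact Or.inr (Or.inr (h s h1 h2))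
  have h2 := Finset.card_le_card h1
  have h3 : ({p, q, r} : Finset (Fin n)).card ≤ 3 := Finset.card_le_three
  rw [Finset.card_univ, Fintype.card_fin] at h2
  omega

theorem relators_mem (hn : 4 ≤ n) (x : T n) (hx : x ∈ relators n) : (x : IA n) ∈ Cbar n := by
  rw [← QuotientGroup.ker_mk' (Cbar n), MonoidHom.mem_ker]
  show pr n (x : IA n) = 1
  rcases hx with (⟨i, j, k, l, m, p, h1, h2, h3, rfl⟩ | ⟨i, j, k, p, q, r, h1, h2, rfl⟩) |
    ⟨p, q, r, s, h1, h2, h3, h4, rfl⟩
  · rw [coe_cm, map_cm, pr_mt _ _ _ h1, pr_mt _ _ _ h2]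
    have h := comm_gen i j k l m p h1 h2 h3
    rw [cm, h.eq, mul_inv_cancel_right, mul_inv_cancel]
  · rw [coe_cm, map_cm, coe_cm, map_cm, pr_mt _ _ _ h1, pr_mt _ _ _ h2, pr_mt _ _ _ (Tr_flip h2)]
    obtain ⟨s, hs1, hs2, hs3⟩ := exists_fourth hn p q r
    have h := cen_gen i j k p q r s h1 h2 hs1 hs2 hs3
    rw [cm, h.eq, mul_inv_cancel_right, mul_inv_cancel]
  · have e : (((cm (mt p s r) (mt s p r) *
        (cm (mt p q r) (mt q p r) * cm (mt q s r) (mt s q r))⁻¹ : T n)) : IA n) =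
        cm (mt p s r : IA n) (mt s p r : IA n) *
          (cm (mt p q r : IA n) (mt q p r : IA n) * cm (mt q s r : IA n) (mt s q r : IA n))⁻¹ :=
      rfl
    have t1 : Tr p s r := ⟨h2, h1.2.1, h4⟩
    have t2 : Tr q s r := ⟨h3, h1.2.2.symm, h4⟩
    rw [e, map_mul, map_inv, map_mul, map_cm, map_cm, map_cm, pr_mt _ _ _ t1,
      pr_mt _ _ _ (Tr_flip t1), pr_mt _ _ _ h1, pr_mt _ _ _ (Tr_flip h1), pr_mt _ _ _ t2,
      pr_mt _ _ _ (Tr_flip t2), mul_inv_eq_one]
    exact coc p q r s h1.1 h1.2.1 h1.2.2.symm h2 h3 h4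

theorem NT_le (hn : 4 ≤ n) : (Subgroup.normalClosure (relators n)).map (T n).subtype ≤ Cbar n := by
  rw [Subgroup.map_le_iff_le_comap]
  apply Subgroup.normalClosure_le_normal
  intro x hx
  exact relators_mem hn x hx

theorem gen_T : Subgroup.closure (Set.range fun t : Fin n × Fin n × Fin n =>
    (mt t.1 t.2.1 t.2.2 : T n)) = ⊤ := by
  have h0 : Subgroup.closure ((fun x : T n => (x : IA n)) ⁻¹' {f : IA n | ∃ i j k : Fin n,
    i ≠ j ∧ j < k ∧ k ≠ i ∧ IsKijk (f : MulAut (FreeGroup (Fin n))) i j k}) = ⊤ :=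
    Subgroup.closure_closure_coe_preimage (k := {f : IA n | ∃ i j k : Fin n,
      i ≠ j ∧ j < k ∧ k ≠ i ∧ IsKijk (f : MulAut (FreeGroup (Fin n))) i j k})
  rw [eq_top_iff, ← h0]
  refine (Subgroup.closure_le _).mpr ?_
  rintro ⟨f, hf⟩ ⟨i, j, k, hij, hjk, hki, h1, h2⟩
  have ht : Tr i j k := ⟨hij.symm, hki, hjk.ne⟩
  have e : (⟨f, hf⟩ : T n) = mt i j k := by
    apply Subtype.ext
    rw [mt_of i j k ht]
    apply Subtype.ext
    apply ext_of
    intro m
    by_cases hm : m = i
    · subst hm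
      exact h1.trans (M_same m j k ht.1 ht.2.1).symm
    · exact (h2 m hm).trans (M_ne i j k ht.1 ht.2.1 hm).symm
  rw [e]
  exact Subgroup.subset_closure ⟨(i, j, k), rfl⟩

theorem main (hn : 4 ≤ n) (τ : T n) (h : rho n (τ : IA n) = 1) :
    τ ∈ Subgroup.normalClosure (relators n) := by
  set N := Subgroup.normalClosure (relators n) with hN
  have hker : ∀ x ∈ N, ((rho n).comp (T n).subtype) x = 1 := by
    intro x hx
    have h1 : (x : IA n) ∈ Cbar n := NT_le hn ⟨x, hx, rfl⟩
    exact Cbar_le h1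
  let b0 : Fin n := ⟨0, by omega⟩
  let b1 : Fin n := ⟨1, by omega⟩
  have hb : b0 ≠ b1 := by simp [b0, b1]
  have hmk : ∀ x ∈ relators n, QuotientGroup.mk' N x = 1 := by
    intro x hx
    rw [← MonoidHom.mem_ker, QuotientGroup.ker_mk']
    exact Subgroup.subset_normalClosure hx
  have h1 := recog b0 b1 hb (G := T n ⧸ N) (fun i j k => QuotientGroup.mk' N (mt i j k))
    (by
      intro i j k hn
      rw [mt_not _ _ _ hn, map_one])
    (by
      intro i j k
      rw [mt_symm, map_inv])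
    (by
      intro i j k l m p t1 t2 t3
      have e := hmk _ (Or.inl (Or.inl ⟨i, j, k, l, m, p, t1, t2, t3, rfl⟩))
      rw [map_cm, cm, mul_inv_eq_one, mul_inv_eq_iff_eq_mul] at e
      exact e)
    (by
      intro i j k p q r t1 t2
      have e := hmk _ (Or.inl (Or.inr ⟨i, j, k, p, q, r, t1, t2, rfl⟩))
      rw [map_cm, map_cm, cm, mul_inv_eq_one, mul_inv_eq_iff_eq_mul] at e
      exact e)
    (by
      intro p q r s t1 t2 t3 t4
      have e := hmk _ (Or.inr ⟨p, q, r, s, t1, t2, t3, t4, rfl⟩)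
      rw [map_mul, map_inv, map_mul, map_cm, map_cm, map_cm, mul_inv_eq_one] at e
      exact e)
    (by
      have e := congrArg (Subgroup.map (QuotientGroup.mk' N)) (gen_T (n := n))
      rw [MonoidHom.map_closure, Subgroup.map_top_of_surjective _
        (QuotientGroup.mk'_surjective N), ← Set.range_comp] at e
      exact e)
    (QuotientGroup.lift N ((rho n).comp (T n).subtype) hker)
    (by
      intro i j k t
      show (rho n ((mt i j k : T n) : IA n)).x = X0 i j k
      rw [mt_of i j k t]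
      exact rho_MI_x i j k t)
    (QuotientGroup.mk' N τ) h
  rw [← MonoidHom.mem_ker, QuotientGroup.ker_mk'] at h1
  exact h1

/-- The Fox derivative `∂w/∂x_m` of the word `w`, evaluated at `x_k = 1 + s` and `x_j = 1` for
`j ≠ k`; a power series in `s` with integer coefficients. Its coefficient of `s ^ r` is the
coefficient of `X_k ^ r X_m` in the Magnus expansion of `w`. -/
noncomputable def fox (k : Fin n) (w : FreeGroup (Fin n)) (m : Fin n) : PowerSeries ℤ :=
  (mu k w).v m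

theorem rho_eq_one (φ : IA n) : rho n φ = 1 ↔
    (∀ k i m, Tr k i m → c1 k φ i m = 0) ∧ (∀ k i, i ≠ k → c2 k φ i = tri (c1 k φ i i)) := by
  constructor
  · intro h
    constructor
    · intro k i m t
      have h1 := congrFun (congrFun (congrFun (congrArg H.x h) k) i) m
      have h2 : (if Tr k i m then c1 k φ i m else 0) = 0 := h1
      rwa [if_pos t] at h2
    · intro k i t
      have h1 := congrFun (congrFun (congrArg H.w h) k) i
      have h2 : (if i ≠ k then c2 k φ i - tri (c1 k φ i i) else 0) = 0 := h1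
      rw [if_pos t] at h2
      linarith
  · rintro ⟨h1, h2⟩
    apply H.ext
    · funext k i m
      show (if Tr k i m then c1 k φ i m else 0) = 0
      split_ifs with t
      · exact h1 k i m t
      · rfl
    · funext k i
      show (if i ≠ k then c2 k φ i - tri (c1 k φ i i) else 0) = 0
      split_ifs with t
      · rw [h2 k i t, sub_self]
      · rfl

theorem c1_T (τ : IA n) (hτ : τ ∈ T n) (k i : Fin n) (hk : i ≠ k) : c1 k τ i i = 0 := by
  let f : IA n →* Multiplicative ℤ :=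
    MonoidHom.mk' (fun φ => Multiplicative.ofAdd (c1 k φ i i)) (by
      intro φ ψ
      rw [c1_mul, ofAdd_add])
  have : T n ≤ f.ker := by
    rw [T, Subgroup.closure_le]
    rintro g ⟨i', j, l, hij, hjl, hli, h1, h2⟩
    have ht : Tr i' j l := ⟨hij.symm, hli, hjl.ne⟩
    have e : g = MI i' j l ht.1 ht.2.1 := by
      apply Subtype.ext
      apply ext_of
      intro m
      by_cases hm : m = i'
      · subst hm
        exact h1.trans (M_same m j l ht.1 ht.2.1).symm
      · exact (h2 m hm).trans (M_ne i' j l ht.1 ht.2.1 hm).symm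
    rw [e]
    show Multiplicative.ofAdd (c1 k (MI i' j l ht.1 ht.2.1) i i) = 1
    rw [c1_MI k i' j l i ht hk]
    rfl
  have h := this hτ
  exact Multiplicative.ofAdd.injective h

/-- Elements of `IA(F(n))` with vanishing first component. -/
def xker (n : ℕ) : Subgroup (IA n) where
  carrier := {g | (rho n g).x = 0}
  mul_mem' := by
    intro g h hg hh
    show (rho n (g * h)).x = 0
    have hg' : (rho n g).x = 0 := hg
    have hh' : (rho n h).x = 0 := hh
    rw [map_mul, H.mul_x, hg', hh', add_zero]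
  one_mem' := by
    show (rho n 1).x = 0
    rw [map_one]; rfl
  inv_mem' := by
    intro g hg
    show (rho n g⁻¹).x = 0
    have hg' : (rho n g).x = 0 := hg
    rw [map_inv, H.inv_x, hg', neg_zero]

theorem comm_T : ⁅T n, T n⁆ ≤ T n ⊓ xker n := by
  rw [Subgroup.commutator_le]
  intro g hg h hh
  refine ⟨(T n).mul_mem ((T n).mul_mem ((T n).mul_mem hg hh) ((T n).inv_mem hg))
    ((T n).inv_mem hh), ?_⟩
  show (rho n (cm g h)).x = 0
  rw [map_cm, H_cm]

theorem pow_w (v : Fin n → Fin n → ℤ) (m : ℤ) : (⟨0, v⟩ : H n) ^ m = ⟨0, m • v⟩ := by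
  let f : Multiplicative ℤ →* H n :=
    { toFun := fun x => ⟨0, (Multiplicative.toAdd x) • v⟩
      map_one' := by
        apply H.ext
        · rfl
        · show (0 : ℤ) • v = 0
          exact zero_smul _ _
      map_mul' := by
        intro x y
        apply H.ext
        · show (0 : Fin n → Fin n → Fin n → ℤ) = 0 + 0
          exact (add_zero _).symm
        · show (Multiplicative.toAdd (x * y)) • v = (Multiplicative.toAdd x) • v +
            (Multiplicative.toAdd y) • v + H.b 0 0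
          rw [H.b_zero_left, toAdd_mul, add_smul, add_zero] }
  have h1 : f (Multiplicative.ofAdd 1) = ⟨0, v⟩ := by
    apply H.ext
    · rfl
    · show (1 : ℤ) • v = v
      exact one_smul _ _
  rw [← h1, ← map_zpow]
  have h2 : (Multiplicative.ofAdd (1 : ℤ)) ^ m = Multiplicative.ofAdd m := by
    rw [← ofAdd_zsmul]; simp
  rw [h2]
  rfl

/-- **The normal closure of `C(n)` in `IA(F(n))` and its intersection with `T(n)`.** -/
theorem result (n : ℕ) :
    (∀ φ ∈ Cbar n,
      (∀ k i m : Fin n, i ≠ k → m ≠ k → i ≠ m → PowerSeries.coeff 1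
        (fox k ((φ : MulAut (FreeGroup (Fin n))) (of i)) m) = 0) ∧
      (∀ k i : Fin n, i ≠ k → 2 * PowerSeries.coeff 2
        (fox k ((φ : MulAut (FreeGroup (Fin n))) (of i)) i) =
          PowerSeries.coeff 1 (fox k ((φ : MulAut (FreeGroup (Fin n))) (of i)) i) *
          (PowerSeries.coeff 1 (fox k ((φ : MulAut (FreeGroup (Fin n))) (of i)) i) - 1))) ∧
    (4 ≤ n → ∀ φ ∈ C n ⊔ T n,
      (∀ k i m : Fin n, i ≠ k → m ≠ k → i ≠ m → PowerSeries.coeff 1
        (fox k ((φ : MulAut (FreeGroup (Fin n))) (of i)) m) = 0) →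
      (∀ k i : Fin n, i ≠ k → 2 * PowerSeries.coeff 2
        (fox k ((φ : MulAut (FreeGroup (Fin n))) (of i)) i) =
          PowerSeries.coeff 1 (fox k ((φ : MulAut (FreeGroup (Fin n))) (of i)) i) *
          (PowerSeries.coeff 1 (fox k ((φ : MulAut (FreeGroup (Fin n))) (of i)) i) - 1)) →
      φ ∈ Cbar n) ∧
    (4 ≤ n → ∀ τ ∈ T n, (τ ∈ Cbar n ↔
      (∀ k i m : Fin n, i ≠ k → m ≠ k → i ≠ m → PowerSeries.coeff 1
        (fox k ((τ : MulAut (FreeGroup (Fin n))) (of i)) m) = 0) ∧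
      (∀ k i : Fin n, i ≠ k → PowerSeries.coeff 2
        (fox k ((τ : MulAut (FreeGroup (Fin n))) (of i)) i) = 0))) ∧
    (4 ≤ n → Cbar n ⊓ T n = (Subgroup.normalClosure (relators n)).map (T n).subtype) ∧
    (4 ≤ n → ⁅⁅T n, T n⁆, T n⁆ ≤ Cbar n) ∧
    (∀ p q r : Fin n, q ≠ p → r ≠ p → r ≠ q → ∀ f g : IA n,
      IsKijk (f : MulAut (FreeGroup (Fin n))) p q r →
      IsKijk (g : MulAut (FreeGroup (Fin n))) q p r →
      ∀ m : ℤ, m ≠ 0 → (f * g * f⁻¹ * g⁻¹) ^ m ∉ Cbar n) ∧
    (3 ≤ n → Cbar n ⊓ T n ≠ ⊥) := by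
  have key : ∀ φ : IA n, rho n φ = 1 ↔
      (∀ k i m : Fin n, i ≠ k → m ≠ k → i ≠ m → PowerSeries.coeff 1
        (fox k ((φ : MulAut (FreeGroup (Fin n))) (of i)) m) = 0) ∧
      (∀ k i : Fin n, i ≠ k → 2 * PowerSeries.coeff 2
        (fox k ((φ : MulAut (FreeGroup (Fin n))) (of i)) i) =
          PowerSeries.coeff 1 (fox k ((φ : MulAut (FreeGroup (Fin n))) (of i)) i) *
          (PowerSeries.coeff 1 (fox k ((φ : MulAut (FreeGroup (Fin n))) (of i)) i) - 1)) := by
    intro φ
    rw [rho_eq_one]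
    constructor
    · rintro ⟨h1, h2⟩
      refine ⟨fun k i m hi hm him => h1 k i m ⟨hi, hm, him⟩, fun k i hi => ?_⟩
      have h3 := h2 k i hi
      have h4 := two_tri (c1 k φ i i)
      rw [← h3] at h4
      exact h4
    · rintro ⟨h1, h2⟩
      refine ⟨fun k i m t => h1 k i m t.1 t.2.1 t.2.2, fun k i hi => ?_⟩
      have h3 := h2 k i hi
      have h4 := two_tri (c1 k φ i i)
      have h5 : 2 * c2 k φ i = c1 k φ i i * (c1 k φ i i - 1) := h3
      linarith
  have keyT : 4 ≤ n → ∀ τ ∈ T n, (τ ∈ Cbar n ↔ rho n τ = 1) := by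
    intro hn τ hτ
    constructor
    · intro h; exact Cbar_le h
    · intro h
      exact NT_le hn ⟨⟨τ, hτ⟩, main hn ⟨τ, hτ⟩ h, rfl⟩
  refine ⟨fun φ hφ => (key φ).mp (Cbar_le hφ), ?_, ?_, ?_, ?_, ?_, fun hn =>
    NontrivialIntersection.result n hn⟩
  · intro hn φ hφ h1 h2
    have hρ := (key φ).mpr ⟨h1, h2⟩
    have hC : C n ≤ Cbar n := Subgroup.subset_normalClosure
    have h3 : φ ∈ Cbar n ⊔ T n := (sup_le_sup_right hC _) hφ
    rw [Subgroup.mem_sup_of_normal_left] at h3
    obtain ⟨c, hc, τ, hτ, rfl⟩ := h3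
    refine mul_mem hc ((keyT hn τ hτ).mpr ?_)
    have h4 : rho n c = 1 := Cbar_le hc
    rw [map_mul, h4, one_mul] at hρ
    exact hρ
  · intro hn τ hτ
    rw [keyT hn τ hτ, rho_eq_one]
    constructor
    · rintro ⟨h1, h2⟩
      refine ⟨fun k i m hi hm him => h1 k i m ⟨hi, hm, him⟩, fun k i hi => ?_⟩
      have h3 := h2 k i hi
      rw [c1_T τ hτ k i hi, tri_zero] at h3
      exact h3
    · rintro ⟨h1, h2⟩
      refine ⟨fun k i m t => h1 k i m t.1 t.2.1 t.2.2, fun k i hi => ?_⟩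
      rw [c1_T τ hτ k i hi, tri_zero]
      exact h2 k i hi
  · intro hn
    apply le_antisymm
    · rintro τ ⟨h1, h2⟩
      exact ⟨⟨τ, h2⟩, main hn ⟨τ, h2⟩ (Cbar_le h1), rfl⟩
    · rintro _ ⟨τ, hτ, rfl⟩
      exact ⟨NT_le hn ⟨τ, hτ, rfl⟩, τ.2⟩
  · intro hn
    rw [Subgroup.commutator_le]
    intro g hg h hh
    obtain ⟨hg1, hg2⟩ := comm_T hg
    have hm : ⁅g, h⁆ ∈ T n := (T n).mul_mem ((T n).mul_mem ((T n).mul_mem hg1 hh)
      ((T n).inv_mem hg1)) ((T n).inv_mem hh)
    rw [keyT hn _ hm]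
    have e : ⁅g, h⁆ = cm g h := rfl
    have hg3 : (rho n g).x = 0 := hg2
    rw [e, map_cm, H_cm, hg3, H.b_zero_left, H.b_zero_right]
    apply H.ext
    · rfl
    · show (0 : Fin n → Fin n → ℤ) - 0 = 0
      exact sub_zero _
  · intro p q r hqp hrp hrq f g hf hg m hm hmem
    have t : Tr p q r := ⟨hqp, hrp, hrq.symm⟩
    have t' : Tr q p r := Tr_flip t
    have ef : f = MI p q r t.1 t.2.1 := by
      apply Subtype.ext
      apply ext_of
      intro x
      by_cases hx : x = p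
      · subst hx
        exact hf.1.trans (M_same x q r t.1 t.2.1).symm
      · exact (hf.2 x hx).trans (M_ne p q r t.1 t.2.1 hx).symm
    have eg : g = MI q p r t'.1 t'.2.1 := by
      apply Subtype.ext
      apply ext_of
      intro x
      by_cases hx : x = q
      · subst hx
        exact hg.1.trans (M_same x p r t'.1 t'.2.1).symm
      · exact (hg.2 x hx).trans (M_ne q p r t'.1 t'.2.1 hx).symm
    have h1 : rho n ((f * g * f⁻¹ * g⁻¹) ^ m) = 1 := Cbar_le hmem
    have h2 : f * g * f⁻¹ * g⁻¹ = cm f g := rfl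
    rw [h2, map_zpow, map_cm, H_cm, ef, eg, rho_MI_x p q r t, rho_MI_x q p r t', b_X0 p q r t,
      b_X0 q p r t', pow_w] at h1
    have h3 := congrFun (congrFun (congrArg H.w h1) r) q
    simp [t.1] at h3
    exact hm h3

end Pool.Agent.Results.MP_0edd48_al.NormalClosure
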